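import Mathlib

/-!
# Waring rank of monomials (lower bound) and border Waring rank (upper bound)
-/

set_option autoImplicit false

namespace Pool.Agent.H964R2.Ws

open MvPolynomial Finset

variable {ι : Type} [Fintype ι] [DecidableEq ι]

/-- the `k`-th power of the linear form with coefficients `v` -/
noncomputable def lf (k : ℕ) (v : ι → ℂ) : MvPolynomial ι ℂ := (∑ j, C (v j) * X j) ^ k

/-- `F` is a sum of `r` terms `c ℓ^k` -/
def RankLE (k r : ℕ) (F : MvPolynomial ι ℂ) : Prop :=
  ∃ (c : Fin r → ℂ) (v : Fin r → ι → ℂ), F = ∑ i, C (c i) * lf k (v i)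

/-- exponent vector as a finitely supported function -/
noncomputable def ex (d : ι → ℕ) : ι →₀ ℕ := Finsupp.equivFunOnFinite.symm d

omit [DecidableEq ι] in
@[simp] theorem ex_apply (d : ι → ℕ) (i : ι) : ex d i = d i := rfl

theorem coeff_lf (k : ℕ) (v : ι → ℂ) (d : ι → ℕ) :
    (lf k v).coeff (ex d) = if ∑ i, d i = k then (Nat.multinomial univ d : ℂ) * ∏ i, v i ^ d i
      else 0 := by
  unfold lf
  rw [Finset.sum_pow_eq_sum_piAntidiag, coeff_sum]
  have h1 : ∀ g : ι → ℕ, ((Nat.multinomial univ g : ℕ) : MvPolynomial ι ℂ) *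
      ∏ i, (C (v i) * X i : MvPolynomial ι ℂ) ^ g i =
      monomial (ex g) ((Nat.multinomial univ g : ℂ) * ∏ i, v i ^ g i) := by
    intro g
    rw [MvPolynomial.monomial_eq]
    have h2 : ((ex g).prod fun n e => (X n : MvPolynomial ι ℂ) ^ e) = ∏ i, (X i) ^ g i := by
      rw [Finsupp.prod_fintype]
      · rfl
      · intro i; simp
    rw [h2]
    simp only [mul_pow, Finset.prod_mul_distrib, map_mul, map_prod, map_pow, map_natCast]
    ring
  rw [Finset.sum_congr rfl fun g _ => by rw [h1 g]]
  simp only [coeff_monomial]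
  have h3 : ∀ g : ι → ℕ, (ex g = ex d) ↔ g = d := fun g =>
    ⟨fun h => by funext i; have := DFunLike.congr_fun h i; simpa using this, fun h => by rw [h]⟩
  simp only [h3]
  rw [Finset.sum_ite_eq']
  simp [Finset.mem_piAntidiag]

/-- all exponents of degree `k`: the moments -/
theorem coeff_rank (k r : ℕ) (c : Fin r → ℂ) (v : Fin r → ι → ℂ) (d : ι → ℕ) (hd : ∑ i, d i = k) :
    (∑ i, C (c i) * lf k (v i)).coeff (ex d) =
      (Nat.multinomial univ d : ℂ) * ∑ i, c i * ∏ j, v i j ^ d j := by
  rw [coeff_sum, Finset.mul_sum]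
  apply Finset.sum_congr rfl
  intro i _
  rw [coeff_C_mul, coeff_lf, if_pos hd]
  ring

/-- lower bound for the rank of a monomial -/
theorem lower (k r : ℕ) (e : ι → ℕ) (he : ∑ i, e i = k) (u : ι) (hu : 1 ≤ e u)
    (h : RankLE k r (monomial (ex e) (1 : ℂ))) : ∏ i ∈ univ.erase u, (e i + 1) ≤ r := by
  obtain ⟨c, v, hF⟩ := h
  have hmom : ∀ d : ι → ℕ, ∑ i, d i = k → d ≠ e → ∑ i, c i * ∏ j, v i j ^ d j = 0 := by
    intro d hd hde
    have h1 := coeff_rank k r c v d hd
    rw [← hF, coeff_monomial, if_neg] at h1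
    · have h2 : (Nat.multinomial univ d : ℂ) ≠ 0 := by
        exact_mod_cast (Nat.multinomial_pos _ _).ne'
      exact (mul_eq_zero.1 h1.symm).resolve_left h2
    · intro h2
      apply hde
      funext i
      have := DFunLike.congr_fun h2 i
      simpa using this.symm
  have hmome : ∑ i, c i * ∏ j, v i j ^ e j ≠ 0 := by
    intro h0
    have h1 := coeff_rank k r c v e he
    rw [← hF, coeff_monomial, if_pos rfl, h0, mul_zero] at h1
    exact one_ne_zero h1
  by_contra hlt
  push Not at hlt
  set B : Finset (ι → ℕ) := Fintype.piFinset (fun i => if i = u then {0} else range (e i + 1)) with hB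
  have hBcard : B.card = ∏ i ∈ univ.erase u, (e i + 1) := by
    rw [hB, Fintype.card_piFinset, ← Finset.mul_prod_erase univ _ (mem_univ u)]
    rw [if_pos rfl, Finset.card_singleton, one_mul]
    apply Finset.prod_congr rfl
    intro i hi
    rw [if_neg (Finset.ne_of_mem_erase hi), Finset.card_range]
  have hBu : ∀ b ∈ B, b u = 0 := by
    intro b hb
    have := Fintype.mem_piFinset.1 hb u
    simpa using this
  have hBi : ∀ b ∈ B, ∀ i, i ≠ u → b i ≤ e i := by
    intro b hb i hi
    have := Fintype.mem_piFinset.1 hb i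
    rw [if_neg hi, Finset.mem_range] at this
    omega
  -- a relation
  set w : B → (Fin r → ℂ) := fun b i => ∏ j ∈ univ.erase u, (v i j / v i u) ^ (b.1 j) with hw
  have hnot : ¬ LinearIndependent ℂ w := by
    intro hli
    have h1 := hli.fintype_card_le_finrank
    rw [Module.finrank_fin_fun, Fintype.card_coe] at h1
    omega
  obtain ⟨g, hg, b1, hb1⟩ := Fintype.not_linearIndependent_iff.1 hnot
  -- the maximal degree
  set T : Finset B := univ.filter fun b => g b ≠ 0 with hT
  have hTne : T.Nonempty := ⟨b1, by simp [hT, hb1]⟩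
  obtain ⟨b0, hb0T, hb0⟩ := Finset.exists_max_image T (fun b => ∑ i, b.1 i) hTne
  have hgb0 : g b0 ≠ 0 := by simpa [hT] using hb0T
  set D := ∑ i, b0.1 i with hD
  -- exponents
  set dd : B → ι → ℕ := fun b j => if j = u then e u + (D - ∑ i, b.1 i) else
    e j - b0.1 j + b.1 j with hdd
  have hsum : ∀ b : B, g b ≠ 0 → ∑ j, dd b j = k := by
    intro b hb
    have hle : ∑ i, b.1 i ≤ D := hb0 b (by simp [hT, hb])
    have h1 : ∑ i ∈ univ.erase u, dd b i + dd b u = ∑ j, dd b j :=
      Finset.sum_erase_add _ _ (mem_univ u)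
    have h2 : ∑ i ∈ univ.erase u, e i + e u = k := by
      rw [← he]; exact Finset.sum_erase_add _ _ (mem_univ u)
    have h3 : ∑ i ∈ univ.erase u, b.1 i + b.1 u = ∑ i, b.1 i :=
      Finset.sum_erase_add _ _ (mem_univ u)
    have h4 : ∑ i ∈ univ.erase u, b0.1 i + b0.1 u = D :=
      Finset.sum_erase_add _ _ (mem_univ u)
    rw [hBu b.1 b.2] at h3
    rw [hBu b0.1 b0.2] at h4
    have h5 : ∑ i ∈ univ.erase u, dd b i + ∑ i ∈ univ.erase u, b0.1 i =
        ∑ i ∈ univ.erase u, e i + ∑ i ∈ univ.erase u, b.1 i := by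
      rw [← Finset.sum_add_distrib, ← Finset.sum_add_distrib]
      apply Finset.sum_congr rfl
      intro i hi
      have hiu := Finset.ne_of_mem_erase hi
      have := hBi b0.1 b0.2 i hiu
      simp only [hdd, if_neg hiu]
      omega
    have h6 : dd b u = e u + (D - ∑ i, b.1 i) := by simp [hdd]
    omega
  have hne : ∀ b : B, g b ≠ 0 → b ≠ b0 → dd b ≠ e := by
    intro b hb hbb h1
    apply hbb
    apply Subtype.ext
    funext j
    by_cases hj : j = u
    · rw [hj, hBu b.1 b.2, hBu b0.1 b0.2]
    · have h2 := congrFun h1 j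
      simp only [hdd, if_neg hj] at h2
      have := hBi b0.1 b0.2 j hj
      omega
  have hdd0 : dd b0 = e := by
    funext j
    by_cases hj : j = u
    · simp [hdd, hj, hD]
    · simp only [hdd, if_neg hj]
      have := hBi b0.1 b0.2 j hj
      omega
  -- the total vanishes termwise
  have hterm : ∀ i : Fin r, ∑ b : B, g b * (c i * ∏ j, v i j ^ dd b j) = 0 := by
    intro i
    by_cases hvi : v i u = 0
    · apply Finset.sum_eq_zero
      intro b _
      have : ∏ j, v i j ^ dd b j = 0 := by
        apply Finset.prod_eq_zero (mem_univ u)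
        rw [hvi]
        apply zero_pow
        simp only [hdd, if_true]
        omega
      rw [this]; ring
    · have hgi := congrFun hg i
      simp only [Finset.sum_apply, Pi.smul_apply, smul_eq_mul, Pi.zero_apply] at hgi
      have h1 : ∀ b : B, g b * (c i * ∏ j, v i j ^ dd b j) =
          (c i * v i u ^ (e u + D) * ∏ j ∈ univ.erase u, (v i j ^ (e j - b0.1 j))) * (g b * w b i) := by
        intro b
        by_cases hb : g b = 0
        · rw [hb]; ring
        have hle : ∑ i, b.1 i ≤ D := hb0 b (by simp [hT, hb])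
        have h2 : ∏ j, v i j ^ dd b j = v i u ^ (e u + (D - ∑ i, b.1 i)) *
            ∏ j ∈ univ.erase u, v i j ^ (e j - b0.1 j + b.1 j) := by
          rw [← Finset.mul_prod_erase univ _ (mem_univ u)]
          congr 1
          · simp [hdd]
          · apply Finset.prod_congr rfl
            intro j hj
            simp only [hdd, if_neg (Finset.ne_of_mem_erase hj)]
        have h3 : w b i * v i u ^ (∑ j, b.1 j) = ∏ j ∈ univ.erase u, v i j ^ (b.1 j) := by
          have h4 : ∑ j ∈ univ.erase u, b.1 j = ∑ j, b.1 j := by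
            have h5 : ∑ i ∈ univ.erase u, b.1 i + b.1 u = ∑ i, b.1 i :=
              Finset.sum_erase_add _ _ (mem_univ u)
            rw [hBu b.1 b.2] at h5
            omega
          rw [← h4, ← Finset.prod_pow_eq_pow_sum, hw]
          simp only
          rw [← Finset.prod_mul_distrib]
          apply Finset.prod_congr rfl
          intro j _
          rw [← mul_pow, div_mul_cancel₀ _ hvi]
        rw [h2]
        simp only [pow_add, Finset.prod_mul_distrib]
        rw [← h3]
        have h6 : v i u ^ D = v i u ^ (D - ∑ j, b.1 j) * v i u ^ (∑ j, b.1 j) := by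
          rw [← pow_add]; congr 1; omega
        rw [h6]
        ring
      rw [Finset.sum_congr rfl fun b _ => h1 b, ← Finset.mul_sum, hgi, mul_zero]
  have htot : ∑ b : B, g b * ∑ i, (c i * ∏ j, v i j ^ dd b j) = 0 := by
    simp_rw [Finset.mul_sum]
    rw [Finset.sum_comm]
    exact Finset.sum_eq_zero fun i _ => hterm i
  rw [Finset.sum_eq_single b0] at htot
  · rw [hdd0] at htot
    exact hmome ((mul_eq_zero.1 htot).resolve_left hgb0)
  · intro b _ hbb
    by_cases hb : g b = 0
    · rw [hb, zero_mul]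
    · rw [hmom _ (hsum b hb) (hne b hb hbb), mul_zero]
  · intro h; exact absurd (mem_univ _) h

end Pool.Agent.H964R2.Ws
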