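import Pool.Agent.H964R2.Ws.Basic

/-!
# Border Waring rank of monomials (upper bound) and non-closed rank loci
-/

set_option autoImplicit false

namespace Pool.Agent.H964R2.Ws

open MvPolynomial Finset Filter Topology

variable {ι : Type} [Fintype ι] [DecidableEq ι]

/-- the set of coefficient families of the forms of rank at most `r` -/
def locus (ι : Type) [Fintype ι] [DecidableEq ι] (k r : ℕ) : Set ((ι →₀ ℕ) → ℂ) :=
  {f | ∃ F : MvPolynomial ι ℂ, RankLE k r F ∧ f = fun d => F.coeff d}

omit [DecidableEq ι] in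
theorem RankLE.succ {k r : ℕ} {F : MvPolynomial ι ℂ} (h : RankLE k r F) : RankLE k (r + 1) F := by
  obtain ⟨c, v, rfl⟩ := h
  refine ⟨Fin.cons 0 c, Fin.cons 0 v, ?_⟩
  rw [Fin.sum_univ_succ]
  simp

theorem RankLE.mono {k r r' : ℕ} {F : MvPolynomial ι ℂ} (h : RankLE k r F) (hr : r ≤ r') :
    RankLE k r' F := by
  induction r', hr using Nat.le_induction with
  | base => exact h
  | succ n _ ih => exact ih.succ

theorem RankLE.of_finset {κ : Type} (k r : ℕ) (S : Finset κ) (hS : S.card ≤ r) (c : κ → ℂ)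
    (v : κ → ι → ℂ) : RankLE k r (∑ i ∈ S, C (c i) * lf k (v i)) := by
  apply RankLE.mono _ hS
  refine ⟨fun i => c (S.equivFin.symm i), fun i => v (S.equivFin.symm i), ?_⟩
  rw [Equiv.sum_comp S.equivFin.symm (fun i : S => C (c i) * lf k (v i))]
  exact (Finset.sum_coe_sort S (fun i => C (c i) * lf k (v i))).symm

/-- quadrature: nodes and weights -/
theorem quad (e : ℕ) : ∃ w t : ℕ → ℂ, (∀ d < e, ∑ j ∈ range (e + 1), w j * t j ^ d = 0) ∧
    ∑ j ∈ range (e + 1), w j * t j ^ e = 1 := by
  have hprim := Complex.isPrimitiveRoot_exp (e + 1) (by omega)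
  set z := Complex.exp (2 * Real.pi * Complex.I / ((e + 1 : ℕ) : ℂ)) with hz
  have hz1 : z ^ (e + 1) = 1 := hprim.pow_eq_one
  refine ⟨fun j => z ^ j / (e + 1), fun j => z ^ j, ?_, ?_⟩
  · intro d hd
    have hne : z ^ (d + 1) ≠ 1 := by
      intro h
      have := (hprim.pow_eq_one_iff_dvd (d + 1)).1 h
      have := Nat.le_of_dvd (by omega) this
      omega
    have h1 : ∀ j, z ^ j / (e + 1) * (z ^ j) ^ d = (z ^ (d + 1)) ^ j / (e + 1) := by
      intro j
      rw [← pow_mul, ← pow_mul, div_mul_eq_mul_div, ← pow_add]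
      congr 2
      ring
    rw [Finset.sum_congr rfl fun j _ => h1 j, ← Finset.sum_div, geom_sum_eq hne, ← pow_mul,
      mul_comm (d + 1), pow_mul, hz1, one_pow, sub_self, zero_div, zero_div]
  · have h1 : ∀ j, z ^ j / (e + 1) * (z ^ j) ^ e = 1 / (e + 1) := by
      intro j
      rw [div_mul_eq_mul_div]
      congr 1
      calc z ^ j * (z ^ j) ^ e = (z ^ (e + 1)) ^ j := by rw [← pow_mul, ← pow_mul]; ring
        _ = 1 := by rw [hz1, one_pow]
    rw [Finset.sum_congr rfl fun j _ => h1 j, Finset.sum_const, Finset.card_range]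
    have : (e : ℂ) + 1 ≠ 0 := by exact_mod_cast Nat.succ_ne_zero e
    simp only [nsmul_eq_mul]
    push_cast
    field_simp

/-- coefficients of a form of degree `k` in other degrees vanish -/
theorem coeff_sum_lf {κ : Type} (k : ℕ) (S : Finset κ) (c : κ → ℂ) (v : κ → ι → ℂ) (d : ι → ℕ) :
    (∑ i ∈ S, C (c i) * lf k (v i)).coeff (ex d) =
      if ∑ i, d i = k then (Nat.multinomial univ d : ℂ) * ∑ i ∈ S, c i * ∏ j, v i j ^ d j else 0 := by
  rw [coeff_sum]
  split_ifs with h
  · rw [Finset.mul_sum]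
    apply Finset.sum_congr rfl
    intro i _
    rw [coeff_C_mul, coeff_lf, if_pos h]
    ring
  · apply Finset.sum_eq_zero
    intro i _
    rw [coeff_C_mul, coeff_lf, if_neg h, mul_zero]

/-- a monomial is a limit of forms of rank at most `∏_{i ≠ m} (e i + 1)` -/
theorem upper (k r : ℕ) (e : ι → ℕ) (he : ∑ i, e i = k) (m : ι)
    (hr : ∏ i ∈ univ.erase m, (e i + 1) ≤ r) :
    (fun d => (monomial (ex e) (1 : ℂ)).coeff d) ∈ closure (locus ι k r) := by
  choose w t hlow htop using quad
  set S : Finset (ι → ℕ) := Fintype.piFinset (fun i => range (if i = m then 1 else e i + 1)) with hS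
  have hScard : S.card ≤ r := by
    rw [hS, Fintype.card_piFinset, ← Finset.mul_prod_erase univ _ (mem_univ m)]
    rw [if_pos rfl, Finset.card_range, one_mul]
    refine le_trans (le_of_eq (Finset.prod_congr rfl ?_)) hr
    intro i hi
    rw [if_neg (Finset.ne_of_mem_erase hi), Finset.card_range]
  set W : ι → ℕ → ℂ := fun i j => if i = m then 1 else w (e i) j with hW
  set τ : ι → ℕ → ℂ := fun i j => if i = m then 1 else t (e i) j with hτ
  set E : ℕ := ∑ i ∈ univ.erase m, e i with hE
  have hmult : (Nat.multinomial univ e : ℂ) ≠ 0 := by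
    exact_mod_cast (Nat.multinomial_pos _ _).ne'
  -- the approximants
  set cc : ℂ → (ι → ℕ) → ℂ := fun ε p => (Nat.multinomial univ e : ℂ)⁻¹ * (ε ^ E)⁻¹ * ∏ i, W i (p i)
    with hcc
  set vv : ℂ → (ι → ℕ) → ι → ℂ := fun ε p i => (if i = m then 1 else ε) * τ i (p i) with hvv
  set F : ℂ → MvPolynomial ι ℂ := fun ε => ∑ p ∈ S, C (cc ε p) * lf k (vv ε p) with hF
  have hmem : ∀ ε, (fun d => (F ε).coeff d) ∈ locus ι k r := fun ε =>
    ⟨F ε, RankLE.of_finset k r S hScard _ _, rfl⟩
  -- moments of the approximants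
  have hmo : ∀ ε : ℂ, ∀ d : ι → ℕ, ∑ p ∈ S, cc ε p * ∏ j, vv ε p j ^ d j =
      (Nat.multinomial univ e : ℂ)⁻¹ * (ε ^ E)⁻¹ * (ε ^ (∑ i ∈ univ.erase m, d i) *
        ∏ i, ∑ j ∈ range (if i = m then 1 else e i + 1), W i j * τ i j ^ d i) := by
    intro ε d
    rw [Finset.prod_univ_sum, Finset.mul_sum, Finset.mul_sum]
    apply Finset.sum_congr rfl
    intro p _
    have h1 : ∏ j, vv ε p j ^ d j = ε ^ (∑ i ∈ univ.erase m, d i) * ∏ j, τ j (p j) ^ d j := by
      simp only [hvv, mul_pow, Finset.prod_mul_distrib]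
      congr 1
      rw [← Finset.mul_prod_erase univ _ (mem_univ m), if_pos rfl, one_pow, one_mul,
        ← Finset.prod_pow_eq_pow_sum]
      apply Finset.prod_congr rfl
      intro i hi
      rw [if_neg (Finset.ne_of_mem_erase hi)]
    rw [h1, Finset.prod_mul_distrib]
    simp only [hcc]
    ring
  -- convergence
  have hlim : ∀ d : ι →₀ ℕ, Tendsto (fun n : ℕ => (F ((1 : ℂ) / ((n : ℂ) + 1))).coeff d) atTop
      (𝓝 ((monomial (ex e) (1 : ℂ)).coeff d)) := by
    intro d0
    obtain ⟨d, rfl⟩ : ∃ d : ι → ℕ, d0 = ex d := ⟨fun i => d0 i, by ext i; rfl⟩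
    have hco : ∀ ε, (F ε).coeff (ex d) = if ∑ i, d i = k then (Nat.multinomial univ d : ℂ) *
      ((Nat.multinomial univ e : ℂ)⁻¹ * (ε ^ E)⁻¹ * (ε ^ (∑ i ∈ univ.erase m, d i) *
        ∏ i, ∑ j ∈ range (if i = m then 1 else e i + 1), W i j * τ i j ^ d i)) else 0 := by
      intro ε
      rw [hF]
      simp only
      rw [coeff_sum_lf, hmo]
    have heq : ∀ d' : ι → ℕ, (ex e = ex d') ↔ e = d' := fun d' =>
      ⟨fun h => by funext i; have := DFunLike.congr_fun h i; simpa using this, fun h => by rw [h]⟩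
    rw [coeff_monomial]
    by_cases hdk : ∑ i, d i = k
    swap
    · have : e ≠ d := by
        intro h
        rw [h] at he
        exact hdk he
      rw [if_neg (by rw [heq]; exact this)]
      simp only [hco, if_neg hdk]
      exact tendsto_const_nhds
    simp only [hco, if_pos hdk]
    by_cases hall : ∀ i, i ≠ m → e i ≤ d i
    swap
    · push Not at hall
      obtain ⟨i, him, hi⟩ := hall
      have hne : e ≠ d := by intro h; rw [h] at hi; exact lt_irrefl _ hi
      rw [if_neg (by rw [heq]; exact hne)]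
      have h0 : ∏ i, ∑ j ∈ range (if i = m then 1 else e i + 1), W i j * τ i j ^ d i = 0 := by
        apply Finset.prod_eq_zero (mem_univ i)
        simp only [hW, hτ, if_neg him]
        exact hlow (e i) (d i) hi
      simp only [h0, mul_zero]
      exact tendsto_const_nhds
    -- all exponents are at least those of `e`
    have hge : E ≤ ∑ i ∈ univ.erase m, d i :=
      Finset.sum_le_sum fun i hi => hall i (Finset.ne_of_mem_erase hi)
    obtain ⟨a, ha⟩ := Nat.exists_eq_add_of_le hge
    have hε : ∀ n : ℕ, ((1 : ℂ) / ((n : ℂ) + 1)) ≠ 0 := by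
      intro n
      have : (n : ℂ) + 1 ≠ 0 := by exact_mod_cast Nat.succ_ne_zero n
      exact one_div_ne_zero this
    have hε0 : Tendsto (fun n : ℕ => (1 : ℂ) / ((n : ℂ) + 1)) atTop (𝓝 0) :=
      tendsto_one_div_add_atTop_nhds_zero_nat
    by_cases hde : e = d
    · rw [if_pos (by rw [hde])]
      subst hde
      have h1 : ∏ i, ∑ j ∈ range (if i = m then 1 else e i + 1), W i j * τ i j ^ e i = 1 := by
        apply Finset.prod_eq_one
        intro i _
        by_cases him : i = m
        · simp [hW, hτ, him]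
        · simp only [hW, hτ, if_neg him]
          exact htop (e i)
      have h2 : ∀ n : ℕ, (Nat.multinomial univ e : ℂ) *
        ((Nat.multinomial univ e : ℂ)⁻¹ * (((1 : ℂ) / ((n : ℂ) + 1)) ^ E)⁻¹ *
          (((1 : ℂ) / ((n : ℂ) + 1)) ^ E *
          ∏ i, ∑ j ∈ range (if i = m then 1 else e i + 1), W i j * τ i j ^ e i)) = 1 := by
        intro n
        rw [h1]
        have := pow_ne_zero E (hε n)
        field_simp
      rw [← hE]
      simp only [h2]
      exact tendsto_const_nhds
    · rw [if_neg (by rw [heq]; exact hde)]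
      have ha0 : a ≠ 0 := by
        intro ha0
        rw [ha0, add_zero] at ha
        apply hde
        have h3 : ∀ i ∈ univ.erase m, e i = d i := by
          rw [hE] at ha
          exact (Finset.sum_eq_sum_iff_of_le fun i hi => hall i (Finset.ne_of_mem_erase hi)).1 ha.symm
        have h4 : ∑ i ∈ univ.erase m, e i + e m = k := by
          rw [← he]; exact Finset.sum_erase_add _ _ (mem_univ m)
        have h5 : ∑ i ∈ univ.erase m, d i + d m = k := by
          rw [← hdk]; exact Finset.sum_erase_add _ _ (mem_univ m)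
        funext i
        by_cases him : i = m
        · rw [him]; omega
        · exact h3 i (Finset.mem_erase.2 ⟨him, mem_univ i⟩)
      have h6 : ∀ n : ℕ, (Nat.multinomial univ d : ℂ) *
        ((Nat.multinomial univ e : ℂ)⁻¹ * (((1 : ℂ) / ((n : ℂ) + 1)) ^ E)⁻¹ *
          (((1 : ℂ) / ((n : ℂ) + 1)) ^ (∑ i ∈ univ.erase m, d i) *
          ∏ i, ∑ j ∈ range (if i = m then 1 else e i + 1), W i j * τ i j ^ d i)) =
          ((Nat.multinomial univ d : ℂ) * (Nat.multinomial univ e : ℂ)⁻¹ *
          ∏ i, ∑ j ∈ range (if i = m then 1 else e i + 1), W i j * τ i j ^ d i) *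
            ((1 : ℂ) / ((n : ℂ) + 1)) ^ a := by
        intro n
        rw [ha, pow_add]
        have := pow_ne_zero E (hε n)
        field_simp
      simp only [h6]
      have h7 := (hε0.pow a).const_mul ((Nat.multinomial univ d : ℂ) *
        (Nat.multinomial univ e : ℂ)⁻¹ *
          ∏ i, ∑ j ∈ range (if i = m then 1 else e i + 1), W i j * τ i j ^ d i)
      rwa [zero_pow ha0, mul_zero] at h7
  refine mem_closure_of_tendsto (b := atTop) (f := fun n : ℕ => fun d =>
    (F ((1 : ℂ) / ((n : ℂ) + 1))).coeff d) ?_ (Eventually.of_forall fun n => hmem _)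
  rw [tendsto_pi_nhds]
  exact hlim

/-- the rank loci are not closed in the range of a monomial -/
theorem mono_case (k r : ℕ) (e : ι → ℕ) (he : ∑ i, e i = k) (u m : ι) (hu : 1 ≤ e u)
    (h1 : ∏ i ∈ univ.erase m, (e i + 1) ≤ r) (h2 : r < ∏ i ∈ univ.erase u, (e i + 1)) :
    ¬ IsClosed (locus ι k r) := by
  intro hc
  have h3 := upper k r e he m h1
  rw [hc.closure_eq] at h3
  obtain ⟨F, hF, h4⟩ := h3
  have h5 : monomial (ex e) (1 : ℂ) = F := by
    ext d
    exact congrFun h4 d
  rw [← h5] at hF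
  have := lower k r e he u hu hF
  omega

end Pool.Agent.H964R2.Ws
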