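import Pool.Agent.H964R2.Ws.Border

/-!
# The chain of monomials
-/

set_option autoImplicit false

namespace Pool.Agent.H964R2.Ws

open MvPolynomial Finset Filter Topology

theorem chain (n k : ℕ) (m : Fin n) : ∀ s : ℕ, ∀ a : Fin n → ℕ, 2 ≤ a m →
    ∑ i ∈ univ.erase m, a i = s → 1 + ∑ i, a i = k → ∀ r, 2 ≤ r → r < ∏ i, (a i + 1) →
    ¬ IsClosed (locus (Fin (n + 1)) k r) := by
  intro s
  induction s with
  | zero =>
    intro a ham hs hk r hr2 hr
    have hz : ∀ i ∈ univ.erase m, a i = 0 := by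
      intro i hi
      exact (Finset.sum_eq_zero_iff.1 hs) i hi
    set e : Fin (n + 1) → ℕ := Fin.cons 1 a with he
    have hsum : ∑ i, e i = k := by rw [Fin.sum_univ_succ]; simpa [he] using hk
    have h0 : ∏ i ∈ univ.erase (0 : Fin (n + 1)), (e i + 1) = ∏ i, (a i + 1) := by
      have h1 := Finset.mul_prod_erase univ (fun i => e i + 1) (mem_univ (0 : Fin (n + 1)))
      rw [Fin.prod_univ_succ] at h1
      have h2 : e 0 = 1 := rfl
      have h3 : ∀ i : Fin n, e i.succ = a i := fun i => rfl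
      simp only [h2, h3] at h1
      omega
    have h1 : ∏ i ∈ univ.erase m.succ, (e i + 1) = 2 * ∏ i ∈ univ.erase m, (a i + 1) := by
      have h1 := Finset.mul_prod_erase univ (fun i => e i + 1) (mem_univ m.succ)
      rw [Fin.prod_univ_succ, ← Finset.mul_prod_erase univ _ (mem_univ m)] at h1
      have h2 : e 0 = 1 := rfl
      have h3 : ∀ i : Fin n, e i.succ = a i := fun i => rfl
      simp only [h2, h3] at h1
      have h4 : 0 < a m + 1 := by omega
      apply Nat.eq_of_mul_eq_mul_left h4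
      rw [h1]
      ring
    apply mono_case k r e hsum 0 m.succ (by simp [he]) _ (by rw [h0]; exact hr)
    rw [h1, Finset.prod_eq_one]
    · omega
    · intro i hi
      rw [hz i hi, zero_add]
  | succ s ih =>
    intro a ham hs hk r hr2 hr
    set e : Fin (n + 1) → ℕ := Fin.cons 1 a with he
    have hsum : ∑ i, e i = k := by rw [Fin.sum_univ_succ]; simpa [he] using hk
    have h0 : ∏ i ∈ univ.erase (0 : Fin (n + 1)), (e i + 1) = ∏ i, (a i + 1) := by
      have h1 := Finset.mul_prod_erase univ (fun i => e i + 1) (mem_univ (0 : Fin (n + 1)))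
      rw [Fin.prod_univ_succ] at h1
      have h2 : e 0 = 1 := rfl
      have h3 : ∀ i : Fin n, e i.succ = a i := fun i => rfl
      simp only [h2, h3] at h1
      omega
    have h1 : ∏ i ∈ univ.erase m.succ, (e i + 1) = 2 * ∏ i ∈ univ.erase m, (a i + 1) := by
      have h1 := Finset.mul_prod_erase univ (fun i => e i + 1) (mem_univ m.succ)
      rw [Fin.prod_univ_succ, ← Finset.mul_prod_erase univ _ (mem_univ m)] at h1
      have h2 : e 0 = 1 := rfl
      have h3 : ∀ i : Fin n, e i.succ = a i := fun i => rfl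
      simp only [h2, h3] at h1
      have h4 : 0 < a m + 1 := by omega
      apply Nat.eq_of_mul_eq_mul_left h4
      rw [h1]
      ring
    by_cases hlow : 2 * ∏ i ∈ univ.erase m, (a i + 1) ≤ r
    · exact mono_case k r e hsum 0 m.succ (by simp [he]) (by rw [h1]; exact hlow)
        (by rw [h0]; exact hr)
    push Not at hlow
    -- move one unit
    obtain ⟨j, hj, hj1⟩ : ∃ j ∈ univ.erase m, 1 ≤ a j := by
      by_contra hcon
      push Not at hcon
      have : ∑ i ∈ univ.erase m, a i = 0 := Finset.sum_eq_zero fun i hi => by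
        have := hcon i hi; omega
      omega
    have hjm : j ≠ m := Finset.ne_of_mem_erase hj
    set a' : Fin n → ℕ := fun i => if i = m then a m + 1 else if i = j then a j - 1 else a i with ha'
    have ham' : a' m = a m + 1 := by simp [ha']
    have haj' : a' j = a j - 1 := by simp [ha', hjm]
    have hai' : ∀ i ∈ (univ.erase m).erase j, a' i = a i := by
      intro i hi
      have h2 := Finset.ne_of_mem_erase hi
      have h3 := Finset.ne_of_mem_erase (Finset.mem_of_mem_erase hi)
      simp [ha', h2, h3]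
    have hs1 : ∑ i ∈ univ.erase m, a i = a j + ∑ i ∈ (univ.erase m).erase j, a i :=
      (Finset.add_sum_erase _ _ hj).symm
    have hs2 : ∑ i ∈ univ.erase m, a' i = (a j - 1) + ∑ i ∈ (univ.erase m).erase j, a i := by
      rw [← Finset.add_sum_erase _ _ hj, haj', Finset.sum_congr rfl hai']
    have hs3 : ∑ i, a i = a m + ∑ i ∈ univ.erase m, a i := (Finset.add_sum_erase _ _ (mem_univ m)).symm
    have hs4 : ∑ i, a' i = (a m + 1) + ∑ i ∈ univ.erase m, a' i := by
      rw [← Finset.add_sum_erase _ _ (mem_univ m), ham']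
    have hp1 : ∏ i ∈ univ.erase m, (a i + 1) = (a j + 1) * ∏ i ∈ (univ.erase m).erase j, (a i + 1) :=
      (Finset.mul_prod_erase _ _ hj).symm
    have hp2 : ∏ i, (a' i + 1) = (a m + 2) * (a j * ∏ i ∈ (univ.erase m).erase j, (a i + 1)) := by
      rw [← Finset.mul_prod_erase univ _ (mem_univ m), ← Finset.mul_prod_erase _ _ hj, ham', haj',
        Finset.prod_congr rfl fun i hi => by rw [hai' i hi]]
      have : a j - 1 + 1 = a j := by omega
      rw [this]
    apply ih a' (by omega) (by omega) (by omega) r hr2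
    refine lt_of_lt_of_le hlow ?_
    rw [hp1, hp2]
    set Q := ∏ i ∈ (univ.erase m).erase j, (a i + 1)
    have h5 : 2 * (a j + 1) ≤ (a m + 2) * a j := by nlinarith
    calc 2 * ((a j + 1) * Q) = (2 * (a j + 1)) * Q := by ring
      _ ≤ ((a m + 2) * a j) * Q := Nat.mul_le_mul_right _ h5
      _ = (a m + 2) * (a j * Q) := by ring

/-- all ranks below the rank of a monomial `x₀ x₁^{a₁} ⋯ xₙ^{aₙ}` -/
theorem main1 (n k : ℕ) (a : Fin n → ℕ) (hk : 1 + ∑ i, a i = k) (ha : ∃ i, 2 ≤ a i) (r : ℕ)
    (h2 : 2 ≤ r) (hr : r < ∏ i, (a i + 1)) : ¬ IsClosed (locus (Fin (n + 1)) k r) := by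
  obtain ⟨m, hm⟩ := ha
  exact chain n k m _ a hm rfl hk r h2 hr

/-- at least three variables -/
theorem main2 (N k r : ℕ) (hN : 3 ≤ N) (hk : 4 ≤ k) (h2 : 2 ≤ r) (hr : r < (k + 1) ^ 2 / 4) :
    ¬ IsClosed (locus (Fin N) k r) := by
  obtain ⟨n, rfl⟩ : ∃ n, N = n + 2 + 1 := ⟨N - 3, by omega⟩
  set a : Fin (n + 2) → ℕ := Fin.cons (k / 2) (Fin.cons ((k - 1) / 2) 0) with ha
  apply main1 (n + 2) k a _ ⟨0, by simp only [ha, Fin.cons_zero]; omega⟩ r h2
  · rw [Fin.prod_univ_succ, Fin.prod_univ_succ]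
    simp only [ha, Fin.cons_zero, Fin.cons_succ, Pi.zero_apply, zero_add, Finset.prod_const_one,
      mul_one]
    refine lt_of_lt_of_le hr ?_
    rcases Nat.even_or_odd' k with ⟨c, hc | hc⟩
    · subst hc
      have h3 : 2 * c / 2 = c := by omega
      have h4 : (2 * c - 1) / 2 = c - 1 := by omega
      rw [h3, h4]
      have h5 : c - 1 + 1 = c := by omega
      rw [h5]
      have h6 : (2 * c + 1) ^ 2 = 4 * ((c + 1) * c) + 1 := by ring
      rw [h6]
      omega
    · subst hc
      have h3 : (2 * c + 1) / 2 = c := by omega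
      have h4 : (2 * c + 1 - 1) / 2 = c := by omega
      rw [h3, h4]
      have h6 : (2 * c + 1 + 1) ^ 2 = 4 * ((c + 1) * (c + 1)) := by ring
      rw [h6]
      omega
  · rw [Fin.sum_univ_succ, Fin.sum_univ_succ]
    simp only [ha, Fin.cons_zero, Fin.cons_succ, Pi.zero_apply, Finset.sum_const_zero]
    omega

end Pool.Agent.H964R2.Ws
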