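import Pool.Agent.H964R2.Ws.Zar

/-!
# Cubics of rank at most three: the form `x³ + y²z`
-/

set_option autoImplicit false

namespace Pool.Agent.H964R2.Ws

open Finset Filter Topology

/-- the form `x³ + y² z` -/
noncomputable def cuspF : MvPolynomial (Fin 3) ℂ :=
  MvPolynomial.X 0 ^ 3 + MvPolynomial.X 1 ^ 2 * MvPolynomial.X 2

theorem cusp_rank : ¬ RankLE 3 3 cuspF := by
  rintro ⟨c, v, hF⟩
  have hcoef : ∀ p q s : ℕ, p + q + s = 3 →
      (Nat.multinomial univ ![p, q, s] : ℂ) * (∑ i, c i * (v i 0 ^ p * v i 1 ^ q * v i 2 ^ s)) =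
        cuspF.coeff (ex ![p, q, s]) := by
    intro p q s h
    have h1 := coeff_rank 3 3 c v ![p, q, s] (by rw [Fin.sum_univ_three]; simpa using h)
    rw [hF, h1]
    simp only [Fin.prod_univ_three]
    rfl
  have hexp : cuspF = MvPolynomial.monomial (ex ![3, 0, 0]) 1 +
      MvPolynomial.monomial (ex ![0, 2, 1]) 1 := by
    unfold cuspF
    have h1 : ex ![3, 0, 0] = Finsupp.single (0 : Fin 3) 3 := by
      ext i; fin_cases i <;> simp [ex_apply]
    have h2 : ex ![0, 2, 1] = Finsupp.single (1 : Fin 3) 2 + Finsupp.single (2 : Fin 3) 1 := by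
      ext i; fin_cases i <;> simp [ex_apply]
    rw [h1, h2, MvPolynomial.X_pow_eq_monomial, MvPolynomial.X_pow_eq_monomial, MvPolynomial.X,
      MvPolynomial.monomial_mul, mul_one]
  have hc2 : ∀ d : Fin 3 → ℕ, cuspF.coeff (ex d) =
      (if ![3, 0, 0] = d then 1 else 0) + (if ![0, 2, 1] = d then 1 else 0) := by
    intro d
    have h3 : ∀ g : Fin 3 → ℕ, (ex g = ex d) ↔ g = d := fun g =>
      ⟨fun h => by funext i; have := DFunLike.congr_fun h i; simpa using this, fun h => by rw [h]⟩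
    rw [hexp, MvPolynomial.coeff_add, MvPolynomial.coeff_monomial, MvPolynomial.coeff_monomial]
    simp only [h3]
  have hm : ∀ p q s : ℕ, (Nat.multinomial univ ![p, q, s] : ℂ) ≠ 0 := by
    intro p q s
    exact_mod_cast (Nat.multinomial_pos _ _).ne'
  set M : ℕ → ℕ → ℕ → ℂ := fun p q s => ∑ i, c i * (v i 0 ^ p * v i 1 ^ q * v i 2 ^ s) with hM
  have hz : ∀ p q s : ℕ, p + q + s = 3 → ![3, 0, 0] ≠ ![p, q, s] → ![0, 2, 1] ≠ ![p, q, s] →
      M p q s = 0 := by
    intro p q s h h1 h2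
    have h3 := hcoef p q s h
    rw [hc2, if_neg h1, if_neg h2, add_zero] at h3
    exact (mul_eq_zero.1 h3).resolve_left (hm p q s)
  have h300 : M 3 0 0 ≠ 0 := by
    intro h
    have h3 := hcoef 3 0 0 rfl
    rw [show (∑ i, c i * (v i 0 ^ 3 * v i 1 ^ 0 * v i 2 ^ 0)) = M 3 0 0 from rfl, h, hc2,
      if_pos rfl, if_neg (by decide)] at h3
    simp at h3
  have h021 : M 0 2 1 ≠ 0 := by
    intro h
    have h3 := hcoef 0 2 1 rfl
    rw [show (∑ i, c i * (v i 0 ^ 0 * v i 1 ^ 2 * v i 2 ^ 1)) = M 0 2 1 from rfl, h, hc2,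
      if_neg (by decide), if_pos rfl] at h3
    simp at h3
  have h210 := hz 2 1 0 rfl (by decide) (by decide)
  have h201 := hz 2 0 1 rfl (by decide) (by decide)
  have h111 := hz 1 1 1 rfl (by decide) (by decide)
  have h012 := hz 0 1 2 rfl (by decide) (by decide)
  have h120 := hz 1 2 0 rfl (by decide) (by decide)
  have h030 := hz 0 3 0 rfl (by decide) (by decide)
  have h102 := hz 1 0 2 rfl (by decide) (by decide)
  have h003 := hz 0 0 3 rfl (by decide) (by decide)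
  simp only [hM, Fin.sum_univ_three] at h300 h021 h210 h201 h111 h012 h120 h030 h102 h003
  by_cases hdet : (Matrix.of v).det = 0
  · obtain ⟨w, hw0, hw⟩ := Matrix.exists_mulVec_eq_zero_iff.2 hdet
    have hwi : ∀ i, v i 0 * w 0 + v i 1 * w 1 + v i 2 * w 2 = 0 := by
      intro i
      have := congrFun hw i
      simpa [Matrix.mulVec, dotProduct, Fin.sum_univ_three] using this
    have hw00 : w 0 = 0 := by
      refine (mul_eq_zero.1 (?_ : _ * w 0 = 0)).resolve_left h300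
      linear_combination (-w 1) * h210 - w 2 * h201 + c 0 * v 0 0 ^ 2 * hwi 0 +
        c 1 * v 1 0 ^ 2 * hwi 1 + c 2 * v 2 0 ^ 2 * hwi 2
    have hw1 : w 1 = 0 := by
      refine (mul_eq_zero.1 (?_ : _ * w 1 = 0)).resolve_left h021
      linear_combination (-w 0) * h111 - w 2 * h012 + c 0 * (v 0 1 * v 0 2) * hwi 0 +
        c 1 * (v 1 1 * v 1 2) * hwi 1 + c 2 * (v 2 1 * v 2 2) * hwi 2
    have hw2 : w 2 = 0 := by
      refine (mul_eq_zero.1 (?_ : _ * w 2 = 0)).resolve_left h021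
      linear_combination (-w 0) * h120 - w 1 * h030 + c 0 * (v 0 1 ^ 2) * hwi 0 +
        c 1 * (v 1 1 ^ 2) * hwi 1 + c 2 * (v 2 1 ^ 2) * hwi 2
    apply hw0
    funext j
    fin_cases j
    · exact hw00
    · exact hw1
    · exact hw2
  · have h1 : Matrix.vecMul (fun i => c i * v i 2 ^ 2) (Matrix.of v) = 0 := by
      funext j
      simp only [Matrix.vecMul, dotProduct, Fin.sum_univ_three, Matrix.of_apply, Pi.zero_apply]
      fin_cases j
      · show c 0 * v 0 2 ^ 2 * v 0 0 + c 1 * v 1 2 ^ 2 * v 1 0 + c 2 * v 2 2 ^ 2 * v 2 0 = 0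
        linear_combination h102
      · show c 0 * v 0 2 ^ 2 * v 0 1 + c 1 * v 1 2 ^ 2 * v 1 1 + c 2 * v 2 2 ^ 2 * v 2 1 = 0
        linear_combination h012
      · show c 0 * v 0 2 ^ 2 * v 0 2 + c 1 * v 1 2 ^ 2 * v 1 2 + c 2 * v 2 2 ^ 2 * v 2 2 = 0
        linear_combination h003
    have h2 := Matrix.eq_zero_of_vecMul_eq_zero hdet h1
    have h3 : ∀ i, c i * v i 2 = 0 := by
      intro i
      have h4 : c i * v i 2 ^ 2 = 0 := congrFun h2 i
      rcases mul_eq_zero.1 h4 with h5 | h5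
      · rw [h5, zero_mul]
      · rw [pow_eq_zero_iff (by norm_num)] at h5
        rw [h5, mul_zero]
    apply h021
    linear_combination v 0 1 ^ 2 * h3 0 + v 1 1 ^ 2 * h3 1 + v 2 1 ^ 2 * h3 2

theorem cusp_closure : (fun d => cuspF.coeff d) ∈ closure (locus (Fin 3) 3 3) := by
  set F : ℂ → MvPolynomial (Fin 3) ℂ := fun ε => cuspF + MvPolynomial.C ε *
    (MvPolynomial.X 1 * MvPolynomial.X 2 ^ 2) + MvPolynomial.C (ε ^ 2) *
      (MvPolynomial.C (1 / 3) * MvPolynomial.X 2 ^ 3) with hF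
  have hmem : ∀ ε : ℂ, ε ≠ 0 → (fun d => (F ε).coeff d) ∈ locus (Fin 3) 3 3 := by
    intro ε hε
    refine ⟨F ε, ⟨![1, 1 / (3 * ε), -(1 / (3 * ε))], ![![1, 0, 0], ![0, 1, ε], ![0, 1, 0]], ?_⟩, rfl⟩
    rw [Fin.sum_univ_three]
    simp only [lf, Fin.sum_univ_three, Matrix.cons_val_zero, Matrix.cons_val_one, Matrix.cons_val,
      map_zero, zero_mul, add_zero, zero_add, map_one, one_mul]
    have h1 : (MvPolynomial.C (1 / (3 * ε)) : MvPolynomial (Fin 3) ℂ) * (3 * MvPolynomial.C ε) = 1 := by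
      rw [show (3 : MvPolynomial (Fin 3) ℂ) = MvPolynomial.C 3 from (map_ofNat MvPolynomial.C 3).symm,
        ← map_mul, ← map_mul]
      rw [show 1 / (3 * ε) * (3 * ε) = 1 by field_simp]
      simp
    have h2 : (MvPolynomial.C (1 / 3) : MvPolynomial (Fin 3) ℂ) * 3 = 1 := by
      rw [show (3 : MvPolynomial (Fin 3) ℂ) = MvPolynomial.C 3 from (map_ofNat MvPolynomial.C 3).symm,
        ← map_mul]
      norm_num
    have h3 : (MvPolynomial.C (1 / (3 * ε)) : MvPolynomial (Fin 3) ℂ) * MvPolynomial.C ε =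
        MvPolynomial.C (1 / 3) := by
      rw [← map_mul]
      congr 1
      field_simp
    simp only [hF, cuspF, map_pow, map_neg]
    linear_combination (-(MvPolynomial.X 1 ^ 2 * MvPolynomial.X 2 +
      MvPolynomial.X 1 * MvPolynomial.X 2 ^ 2 * MvPolynomial.C ε) : MvPolynomial (Fin 3) ℂ) * h1 -
      (MvPolynomial.X 2 ^ 3 * MvPolynomial.C ε ^ 2 : MvPolynomial (Fin 3) ℂ) * h3
  have hε : ∀ n : ℕ, ((1 : ℂ) / ((n : ℂ) + 1)) ≠ 0 := by
    intro n
    have : (n : ℂ) + 1 ≠ 0 := by exact_mod_cast Nat.succ_ne_zero n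
    exact one_div_ne_zero this
  have hε0 : Tendsto (fun n : ℕ => (1 : ℂ) / ((n : ℂ) + 1)) atTop (𝓝 0) :=
    tendsto_one_div_add_atTop_nhds_zero_nat
  refine mem_closure_of_tendsto (b := atTop) (f := fun n : ℕ => fun d =>
    (F ((1 : ℂ) / ((n : ℂ) + 1))).coeff d) ?_ (Eventually.of_forall fun n => hmem _ (hε n))
  rw [tendsto_pi_nhds]
  intro d
  have h1 : ∀ ε : ℂ, (F ε).coeff d = cuspF.coeff d + ε *
      (MvPolynomial.X 1 * MvPolynomial.X 2 ^ 2 : MvPolynomial (Fin 3) ℂ).coeff d + ε ^ 2 *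
      (MvPolynomial.C (1 / 3) * MvPolynomial.X 2 ^ 3 : MvPolynomial (Fin 3) ℂ).coeff d := by
    intro ε
    simp only [hF, MvPolynomial.coeff_add, MvPolynomial.coeff_C_mul]
  simp only [h1]
  have h2 := ((hε0.mul_const ((MvPolynomial.X 1 * MvPolynomial.X 2 ^ 2 :
    MvPolynomial (Fin 3) ℂ).coeff d)).const_add (cuspF.coeff d)).add
      ((hε0.pow 2).mul_const ((MvPolynomial.C (1 / 3) * MvPolynomial.X 2 ^ 3 :
        MvPolynomial (Fin 3) ℂ).coeff d))
  simpa using h2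

theorem cusp : ¬ IsClosed (locus (Fin 3) 3 3) := by
  intro hc
  have h3 := cusp_closure
  rw [hc.closure_eq] at h3
  obtain ⟨F, hF, h4⟩ := h3
  have h5 : cuspF = F := by
    ext d
    exact congrFun h4 d
  rw [← h5] at hF
  exact cusp_rank hF

/-- three variables, degree at least three: `Y_r` is Zariski closed only for `r ≤ 1` and `r ≥ R_S` -/
theorem main4 (k r : ℕ) (hk : 3 ≤ k) (h2 : 2 ≤ r)
    (hr : ∃ F : MvPolynomial (Fin 3) ℂ, F.IsHomogeneous k ∧ ¬ RankLE k r F) :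
    ¬ ZarClosed (Fin 3) k r := by
  rcases Nat.lt_or_ge 3 k with h3 | h3
  · exact main3 k r h3 h2 hr
  have hk3 : k = 3 := by omega
  subst hk3
  intro hz
  rcases Nat.lt_or_ge r 4 with h4 | h4
  · have h5 : r = 2 ∨ r = 3 := by omega
    rcases h5 with h5 | h5
    · subst h5
      refine main1 2 3 ![2, 0] (by simp [Fin.sum_univ_two]) ⟨0, by simp⟩ 2 le_rfl ?_ hz.isClosed
      simp [Fin.prod_univ_two]
    · subst h5
      exact cusp hz.isClosed
  obtain ⟨F, hF, hFr⟩ := hr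
  obtain ⟨P, hP⟩ := hz
  apply hFr
  rw [hP F hF]
  intro p hp
  apply dense 3 le_rfl p _ F hF
  intro G hG
  exact (hP G hG.hom).1 (hG.mono (by omega)) p hp

end Pool.Agent.H964R2.Ws
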