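import Mathlib

/-!
# No plane curve of degree `k` is singular at `⌊(k+1)²/4⌋` suitable points
-/

set_option autoImplicit false

namespace Pool.Agent.H964R2.Ws

open Polynomial Finset

theorem zs (D n : ℕ) (c : ℕ → ℂ) (hD : D < n)
    (h : ∀ j < n, ∑ s ∈ range (D + 1), c s * (j : ℂ) ^ s = 0) : ∀ s ≤ D, c s = 0 := by
  set p : ℂ[X] := ∑ s ∈ range (D + 1), C (c s) * X ^ s with hp
  have hdeg : p.natDegree < n := by
    refine lt_of_le_of_lt (natDegree_sum_le_of_forall_le _ _ fun s hs => ?_) hD
    refine (natDegree_C_mul_X_pow_le _ _).trans ?_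
    have := Finset.mem_range.1 hs
    omega
  have h0 : p = 0 := by
    apply Polynomial.eq_zero_of_natDegree_lt_card_of_eval_eq_zero (f := fun i : Fin n => ((i : ℕ) : ℂ))
    · intro a b hab
      have hab' : ((a : ℕ) : ℂ) = ((b : ℕ) : ℂ) := hab
      exact Fin.ext (by exact_mod_cast hab')
    · intro i
      rw [hp, eval_finsetSum]
      simpa using h i i.2
    · simpa using hdeg
  intro s hs
  have h1 : p.coeff s = 0 := by rw [h0, coeff_zero]
  rw [hp, finsetSum_coeff, Finset.sum_eq_single s] at h1
  · simpa using h1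
  · intro b _ hb
    rw [coeff_C_mul_X_pow, if_neg (Ne.symm hb)]
  · intro h2
    exact absurd (Finset.mem_range.2 (by omega)) h2

theorem zd (D n : ℕ) (c : ℕ → ℂ) (hD : D < 2 * n)
    (h : ∀ j < n, ∑ s ∈ range (D + 1), c s * (j : ℂ) ^ s = 0)
    (h' : ∀ j < n, ∑ s ∈ range (D + 1), c s * ((s : ℂ) * (j : ℂ) ^ (s - 1)) = 0) :
    ∀ s ≤ D, c s = 0 := by
  set p : ℂ[X] := ∑ s ∈ range (D + 1), C (c s) * X ^ s with hp
  have hdeg : p.natDegree ≤ D := by
    refine natDegree_sum_le_of_forall_le _ _ fun s hs => ?_
    refine (natDegree_C_mul_X_pow_le _ _).trans ?_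
    have := Finset.mem_range.1 hs
    omega
  have h0 : p = 0 := by
    by_contra hne
    have hroot : ∀ j < n, 1 < p.rootMultiplicity (j : ℂ) := by
      intro j hj
      rw [Polynomial.one_lt_rootMultiplicity_iff_isRoot hne]
      constructor
      · rw [IsRoot.def, hp, eval_finsetSum]
        simpa using h j hj
      · rw [IsRoot.def, hp, derivative_sum, eval_finsetSum]
        rw [← h' j hj]
        apply Finset.sum_congr rfl
        intro s _
        rw [derivative_C_mul_X_pow]
        simp
        ring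
    set T : Finset ℂ := (range n).image (fun j : ℕ => (j : ℂ)) with hT
    have hTc : T.card = n := by
      rw [hT, Finset.card_image_of_injective _ Nat.cast_injective, Finset.card_range]
    have h1 : ∑ x ∈ T, 2 ≤ ∑ x ∈ T, p.roots.count x := by
      apply Finset.sum_le_sum
      intro x hx
      obtain ⟨j, hj, rfl⟩ := Finset.mem_image.1 hx
      rw [count_roots]
      exact hroot j (Finset.mem_range.1 hj)
    have h2 : ∑ x ∈ T, p.roots.count x ≤ p.roots.card := by
      rw [← Multiset.toFinset_sum_count_eq p.roots]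
      have h3 : ∑ x ∈ T, p.roots.count x = ∑ x ∈ T ∩ p.roots.toFinset, p.roots.count x := by
        symm
        apply Finset.sum_subset Finset.inter_subset_left
        intro x hx hx'
        rw [Multiset.count_eq_zero]
        intro h4
        exact hx' (Finset.mem_inter.2 ⟨hx, Multiset.mem_toFinset.2 h4⟩)
      rw [h3]
      exact Finset.sum_le_sum_of_subset Finset.inter_subset_right
    have h4 := p.card_roots'
    rw [Finset.sum_const, hTc, smul_eq_mul] at h1
    omega
  intro s hs
  have h1 : p.coeff s = 0 := by rw [h0, coeff_zero]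
  rw [hp, finsetSum_coeff, Finset.sum_eq_single s] at h1
  · simpa using h1
  · intro b _ hb
    rw [coeff_C_mul_X_pow, if_neg (Ne.symm hb)]
  · intro h2
    exact absurd (Finset.mem_range.2 (by omega)) h2

/-- a polynomial with too many small integer roots vanishes -/
theorem zero_of_roots (q : ℂ[X]) (n : ℕ) (hq : q ≠ 0 → q.natDegree < n)
    (h : ∀ i < n, q.eval (i : ℂ) = 0) : q = 0 := by
  by_contra hne
  apply hne
  apply Polynomial.eq_zero_of_natDegree_lt_card_of_eval_eq_zero (f := fun i : Fin n => ((i : ℕ) : ℂ))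
  · intro a b hab
    have hab' : ((a : ℕ) : ℂ) = ((b : ℕ) : ℂ) := hab
    exact Fin.ext (by exact_mod_cast hab')
  · intro i
    exact h i i.2
  · simpa using hq hne

/-- division by `∏ (y - i)` -/
theorem divide (k p : ℕ) (g : ℕ → ℂ[X]) (hdeg : ∀ s, g s ≠ 0 → (g s).natDegree + s ≤ k)
    (hz : ∀ s, ∀ i < p, (g s).eval (i : ℂ) = 0) :
    ∃ h : ℕ → ℂ[X], ∃ A : ℂ[X], (∀ s, g s = A * h s) ∧ (∀ i, p ≤ i → A.eval (i : ℂ) ≠ 0) ∧
      (∀ s, h s ≠ 0 → (h s).natDegree + s + p ≤ k) ∧
      (∀ i < p, ∃ c : ℂ, c ≠ 0 ∧ ∀ s, (derivative (g s)).eval (i : ℂ) = c * (h s).eval (i : ℂ)) := by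
  set A : ℂ[X] := ∏ i ∈ range p, (X - C (i : ℂ)) with hA
  have hdvd : ∀ s, A ∣ g s := by
    intro s
    apply Finset.prod_dvd_of_coprime
    · intro a _ b _ hab
      exact Polynomial.pairwise_coprime_X_sub_C (s := fun i : ℕ => (i : ℂ)) Nat.cast_injective hab
    · intro i hi
      exact Polynomial.dvd_iff_isRoot.2 (hz s i (Finset.mem_range.1 hi))
  choose h hh using hdvd
  have hAmon : A.Monic := monic_prod_of_monic _ _ fun i _ => monic_X_sub_C _
  have hAdeg : A.natDegree = p := by
    rw [hA, natDegree_prod_of_monic _ _ fun i _ => monic_X_sub_C _,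
      Finset.sum_congr rfl fun i _ => natDegree_X_sub_C _]
    simp
  refine ⟨h, A, hh, ?_, ?_, ?_⟩
  · intro i hi
    rw [hA, eval_prod, Finset.prod_ne_zero_iff]
    intro j hj
    have := Finset.mem_range.1 hj
    simp only [eval_sub, eval_X, eval_C]
    rw [sub_ne_zero]
    exact_mod_cast (by omega : i ≠ j)
  · intro s hs
    have h1 : g s ≠ 0 := by
      rw [hh s]
      exact mul_ne_zero hAmon.ne_zero hs
    have h2 := hdeg s h1
    rw [hh s, natDegree_mul hAmon.ne_zero hs, hAdeg] at h2
    omega
  · intro i hi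
    refine ⟨(derivative A).eval (i : ℂ), ?_, ?_⟩
    · rw [hA, ← Finset.mul_prod_erase _ _ (Finset.mem_range.2 hi), derivative_mul]
      simp only [derivative_sub, derivative_X, derivative_C, sub_zero, one_mul, eval_add, eval_mul,
        eval_sub, eval_X, eval_C, sub_self, zero_mul, add_zero]
      rw [eval_prod, Finset.prod_ne_zero_iff]
      intro j hj
      have := Finset.ne_of_mem_erase hj
      simp only [eval_sub, eval_X, eval_C]
      rw [sub_ne_zero]
      exact_mod_cast this.symm
    · intro s
      have h1 : A.eval (i : ℂ) = 0 := by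
        rw [hA, eval_prod]
        apply Finset.prod_eq_zero (Finset.mem_range.2 hi)
        simp
      rw [hh s, derivative_mul, eval_add, eval_mul, eval_mul, h1]
      ring

/-- the conditions at a point -/
def Sing (k : ℕ) (g : ℕ → ℂ[X]) (i j : ℕ) : Prop :=
  ∑ s ∈ range (k + 1), (g s).eval (i : ℂ) * (j : ℂ) ^ s = 0 ∧
  ∑ s ∈ range (k + 1), (g s).eval (i : ℂ) * ((s : ℂ) * (j : ℂ) ^ (s - 1)) = 0 ∧
  ∑ s ∈ range (k + 1), (derivative (g s)).eval (i : ℂ) * (j : ℂ) ^ s = 0

theorem odd_case (b : ℕ) (g : ℕ → ℂ[X]) (hdeg : ∀ s, g s ≠ 0 → (g s).natDegree + s ≤ 2 * b + 1)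
    (h : ∀ i < b + 1, ∀ j < b + 1, Sing (2 * b + 1) g i j) : ∀ s, g s = 0 := by
  have hz : ∀ s, ∀ i < b + 1, (g s).eval (i : ℂ) = 0 := by
    intro s i hi
    by_cases hs : s ≤ 2 * b + 1
    · exact zd (2 * b + 1) (b + 1) (fun s => (g s).eval (i : ℂ)) (by omega)
        (fun j hj => (h i hi j hj).1) (fun j hj => (h i hi j hj).2.1) s hs
    · have : g s = 0 := by
        by_contra hne
        have := hdeg s hne
        omega
      rw [this, eval_zero]
  obtain ⟨q, A, hq, _, hqdeg, hder⟩ := divide (2 * b + 1) (b + 1) g hdeg hz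
  have hq0 : ∀ s, q s = 0 := by
    have hbig : ∀ s, b < s → q s = 0 := by
      intro s hs
      by_contra hne
      have := hqdeg s hne
      omega
    have hroot : ∀ s ≤ b, ∀ i < b + 1, (q s).eval (i : ℂ) = 0 := by
      intro s hs i hi
      obtain ⟨c, hc, hcs⟩ := hder i hi
      refine zs b (b + 1) (fun s => (q s).eval (i : ℂ)) (by omega) ?_ s hs
      intro j hj
      have h1 := (h i hi j hj).2.2
      simp only [hcs] at h1
      have h2 : ∑ s ∈ range (2 * b + 1 + 1), c * (q s).eval (i : ℂ) * (j : ℂ) ^ s =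
          c * ∑ s ∈ range (b + 1), (q s).eval (i : ℂ) * (j : ℂ) ^ s := by
        rw [Finset.mul_sum]
        symm
        apply Finset.sum_subset_zero_on_sdiff
        · intro x hx
          have := Finset.mem_range.1 hx
          exact Finset.mem_range.2 (by omega)
        · intro x hx
          obtain ⟨_, h4⟩ := Finset.mem_sdiff.1 hx
          rw [hbig x (by have := mt Finset.mem_range.2 h4; omega), eval_zero]
          ring
        · intro x _; ring
      rw [h2] at h1
      exact (mul_eq_zero.1 h1).resolve_left hc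
    intro s
    by_cases hs : s ≤ b
    · apply zero_of_roots (q s) (b + 1) _ (hroot s hs)
      intro hne
      have := hqdeg s hne
      omega
    · exact hbig s (by omega)
  intro s
  rw [hq s, hq0 s, mul_zero]

theorem even_case (m : ℕ) (hm : 2 ≤ m) (g : ℕ → ℂ[X])
    (hdeg : ∀ s, g s ≠ 0 → (g s).natDegree + s ≤ 2 * m)
    (h0 : ∀ j < m + 1, Sing (2 * m) g 0 j)
    (h : ∀ i, 1 ≤ i → i < m → ∀ j < m, Sing (2 * m) g i j)
    (hx : Sing (2 * m) g m 0) : ∀ s, g s = 0 := by
  have hbig0 : ∀ s, 2 * m < s → g s = 0 := by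
    intro s hs
    by_contra hne
    have := hdeg s hne
    omega
  have hz0 : ∀ s, (g s).eval ((0 : ℕ) : ℂ) = 0 := by
    intro s
    by_cases hs : s ≤ 2 * m
    · exact zd (2 * m) (m + 1) (fun s => (g s).eval ((0 : ℕ) : ℂ)) (by omega)
        (fun j hj => (h0 j hj).1) (fun j hj => (h0 j hj).2.1) s hs
    · rw [hbig0 s (by omega), eval_zero]
  have htop : g (2 * m) = 0 := by
    apply zero_of_roots _ 1
    · intro hne
      have := hdeg _ hne
      omega
    · intro i hi
      have : i = 0 := by omega
      subst this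
      exact hz0 _
  have hz : ∀ s, ∀ i < m, (g s).eval (i : ℂ) = 0 := by
    intro s i hi
    by_cases hi0 : i = 0
    · subst hi0; exact hz0 s
    by_cases hs : s ≤ 2 * m - 1
    · have e1 : 2 * m - 1 + 1 = 2 * m := by omega
      refine zd (2 * m - 1) m (fun s => (g s).eval (i : ℂ)) (by omega) ?_ ?_ s hs
      · intro j hj
        have h1 := (h i (by omega) hi j hj).1
        rw [Finset.sum_range_succ, htop, eval_zero, zero_mul, add_zero] at h1
        rw [e1]
        exact h1
      · intro j hj
        have h1 := (h i (by omega) hi j hj).2.1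
        rw [Finset.sum_range_succ, htop, eval_zero, zero_mul, add_zero] at h1
        rw [e1]
        exact h1
    · by_cases hs2 : s = 2 * m
      · rw [hs2, htop, eval_zero]
      · rw [hbig0 s (by omega), eval_zero]
  obtain ⟨q, A, hq, hA, hqdeg, hder⟩ := divide (2 * m) m g hdeg hz
  have hbig : ∀ s, m < s → q s = 0 := by
    intro s hs
    by_contra hne
    have := hqdeg s hne
    omega
  have hcond : ∀ i < m, ∀ j, Sing (2 * m) g i j →
      ∑ s ∈ range (m + 1), (q s).eval (i : ℂ) * (j : ℂ) ^ s = 0 := by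
    intro i hi j hs
    obtain ⟨c, hc, hcs⟩ := hder i hi
    have h1 := hs.2.2
    simp only [hcs] at h1
    have h2 : ∑ s ∈ range (2 * m + 1), c * (q s).eval (i : ℂ) * (j : ℂ) ^ s =
        c * ∑ s ∈ range (m + 1), (q s).eval (i : ℂ) * (j : ℂ) ^ s := by
      rw [Finset.mul_sum]
      symm
      apply Finset.sum_subset_zero_on_sdiff
      · intro x hx
        have := Finset.mem_range.1 hx
        exact Finset.mem_range.2 (by omega)
      · intro x hx
        obtain ⟨_, h4⟩ := Finset.mem_sdiff.1 hx
        rw [hbig x (by have := mt Finset.mem_range.2 h4; omega), eval_zero]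
        ring
      · intro x _; ring
    rw [h2] at h1
    exact (mul_eq_zero.1 h1).resolve_left hc
  have hr0 : ∀ s ≤ m, (q s).eval ((0 : ℕ) : ℂ) = 0 :=
    zs m (m + 1) (fun s => (q s).eval ((0 : ℕ) : ℂ)) (by omega)
      (fun j hj => hcond 0 (by omega) j (h0 j hj))
  have hqm : q m = 0 := by
    apply zero_of_roots _ 1
    · intro hne
      have := hqdeg _ hne
      omega
    · intro i hi
      have : i = 0 := by omega
      subst this
      exact hr0 _ le_rfl
  have hroot : ∀ s, ∀ i < m, (q s).eval (i : ℂ) = 0 := by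
    intro s i hi
    by_cases hs : s ≤ m
    · by_cases hi0 : i = 0
      · subst hi0; exact hr0 s hs
      by_cases hsm : s = m
      · rw [hsm, hqm, eval_zero]
      have e1 : m - 1 + 1 = m := by omega
      refine zs (m - 1) m (fun s => (q s).eval (i : ℂ)) (by omega) ?_ s (by omega)
      intro j hj
      have h1 := hcond i hi j (h i (by omega) hi j hj)
      rw [Finset.sum_range_succ, hqm, eval_zero, zero_mul, add_zero] at h1
      rw [e1]
      exact h1
    · rw [hbig s (by omega), eval_zero]
  have hq0 : ∀ s, q s = 0 := by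
    intro s
    by_cases hs0 : s = 0
    · subst hs0
      apply zero_of_roots _ (m + 1)
      · intro hne
        have := hqdeg _ hne
        omega
      · intro i hi
        by_cases him : i < m
        · exact hroot 0 i him
        · have : i = m := by omega
          subst this
          have h1 := hx.1
          rw [Finset.sum_eq_single 0] at h1
          · simp only [pow_zero, mul_one, hq 0, eval_mul] at h1
            exact (mul_eq_zero.1 h1).resolve_left (hA i le_rfl)
          · intro b _ hb
            simp [hb]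
          · intro h2
            exact absurd (Finset.mem_range.2 (by omega)) h2
    · apply zero_of_roots _ m _ (hroot s)
      intro hne
      have := hqdeg s hne
      omega
  intro s
  rw [hq s, hq0 s, mul_zero]

end Pool.Agent.H964R2.Ws
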