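import Pool.Agent.H964R2.Ws.Chain
import Pool.Agent.H964R2.Ws.Double

/-!
# Density of the forms of rank at most `⌊(k+1)²/4⌋` in three variables
-/

set_option autoImplicit false

namespace Pool.Agent.H964R2.Ws

open Finset Filter Topology

/-- exponents of degree `k` in three variables -/
abbrev J (k : ℕ) : Type := {d : Fin 3 → ℕ // d ∈ Finset.piAntidiag (univ : Finset (Fin 3)) k}

theorem J_sum {k : ℕ} (d : J k) : ∑ i, d.1 i = k := by
  have := Finset.mem_piAntidiag.1 d.2
  exact this.1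

/-- the moment map -/
noncomputable def Phi (k : ℕ) (S : Type) [Fintype S] (v : S → Fin 3 → ℂ) (d : J k) : ℂ :=
  ∑ i, ∏ l, v i l ^ d.1 l

theorem Phi_contDiff (k : ℕ) (S : Type) [Fintype S] : ContDiff ℂ 1 (Phi k S) := by
  rw [contDiff_pi]
  intro d
  unfold Phi
  apply ContDiff.sum
  intro i _
  apply contDiff_prod
  intro l _
  fun_prop

theorem der (k : ℕ) (S : Type) [Fintype S] [DecidableEq S] (v : S → Fin 3 → ℂ) (i : S) (j : Fin 3)
    (d : J k) : HasDerivAt (fun t : ℂ => Phi k S (v + t • (Pi.single i (Pi.single j (1 : ℂ) : Fin 3 → ℂ) : S → Fin 3 → ℂ)) d)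
      ((d.1 j : ℂ) * v i j ^ (d.1 j - 1) * ∏ l ∈ univ.erase j, v i l ^ d.1 l) 0 := by
  have h1 : ∀ t : ℂ, Phi k S (v + t • (Pi.single i (Pi.single j (1 : ℂ) : Fin 3 → ℂ) : S → Fin 3 → ℂ)) d =
      (v i j + t) ^ d.1 j * (∏ l ∈ univ.erase j, v i l ^ d.1 l) +
        ∑ i' ∈ univ.erase i, ∏ l, v i' l ^ d.1 l := by
    intro t
    unfold Phi
    rw [← Finset.add_sum_erase univ _ (mem_univ i)]
    congr 1
    · rw [← Finset.mul_prod_erase univ _ (mem_univ j)]
      congr 1
      · simp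
      · apply Finset.prod_congr rfl
        intro l hl
        simp [Pi.single_apply, Finset.ne_of_mem_erase hl]
    · apply Finset.sum_congr rfl
      intro i' hi'
      apply Finset.prod_congr rfl
      intro l _
      simp [Pi.single_apply, Finset.ne_of_mem_erase hi']
  have h2 : HasDerivAt (fun t : ℂ => (v i j + t) ^ d.1 j *
      (∏ l ∈ univ.erase j, v i l ^ d.1 l) + ∑ i' ∈ univ.erase i, ∏ l, v i' l ^ d.1 l)
      (((d.1 j : ℂ) * (v i j + 0) ^ (d.1 j - 1) * 1) * (∏ l ∈ univ.erase j, v i l ^ d.1 l)) 0 :=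
    ((((hasDerivAt_id (0 : ℂ)).const_add (v i j)).pow (d.1 j)).mul_const _).add_const _
  rw [add_zero, mul_one] at h2
  exact h2.congr_of_eventuallyEq (Eventually.of_forall h1)

/-- the coefficient polynomials of a functional -/
noncomputable def gg (k : ℕ) (lam : J k → ℂ) (s : ℕ) : Polynomial ℂ :=
  ∑ d : J k, if d.1 2 = s then Polynomial.C (lam d) * Polynomial.X ^ (d.1 1) else 0

theorem gg_deg (k : ℕ) (lam : J k → ℂ) (s : ℕ) (h : gg k lam s ≠ 0) :
    (gg k lam s).natDegree + s ≤ k := by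
  have hs : s ≤ k := by
    by_contra hcon
    apply h
    unfold gg
    apply Finset.sum_eq_zero
    intro d _
    rw [if_neg]
    intro h1
    have h2 := J_sum d
    rw [Fin.sum_univ_three] at h2
    omega
  have h1 : (gg k lam s).natDegree ≤ k - s := by
    unfold gg
    apply Polynomial.natDegree_sum_le_of_forall_le
    intro d _
    split_ifs with h1
    · refine (Polynomial.natDegree_C_mul_X_pow_le _ _).trans ?_
      have h2 := J_sum d
      rw [Fin.sum_univ_three] at h2
      omega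
    · simp
  omega

/-- sums over `s` of the coefficient polynomials -/
theorem gg_sum (k : ℕ) (lam : J k → ℂ) (φ : Polynomial ℂ →ₗ[ℂ] ℂ) (w : ℕ → ℂ) :
    ∑ s ∈ range (k + 1), φ (gg k lam s) * w s =
      ∑ d : J k, lam d * φ (Polynomial.X ^ (d.1 1)) * w (d.1 2) := by
  unfold gg
  simp only [map_sum, Finset.sum_mul]
  rw [Finset.sum_comm]
  apply Finset.sum_congr rfl
  intro d _
  rw [Finset.sum_eq_single (d.1 2)]
  · rw [if_pos rfl, ← Polynomial.smul_eq_C_mul, map_smul, smul_eq_mul]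
  · intro s _ hs
    rw [if_neg (Ne.symm hs), map_zero, zero_mul]
  · intro h
    exfalso
    apply h
    have h2 := J_sum d
    rw [Fin.sum_univ_three] at h2
    exact Finset.mem_range.2 (by omega)

theorem surj (k : ℕ) (hk : 1 ≤ k) (S : Finset (ℕ × ℕ))
    (hS : ∀ g : ℕ → Polynomial ℂ, (∀ s, g s ≠ 0 → (g s).natDegree + s ≤ k) →
      (∀ p ∈ S, Sing k g p.1 p.2) → ∀ s, g s = 0) :
    ∃ v : S → Fin 3 → ℂ, (fderiv ℂ (Phi k S) v).range = ⊤ := by
  classical
  set v : S → Fin 3 → ℂ := fun p => ![1, (p.1.1 : ℂ), (p.1.2 : ℂ)] with hv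
  refine ⟨v, ?_⟩
  by_contra hne
  obtain ⟨f, hf0, hf⟩ := Submodule.exists_le_ker_of_lt_top _ (lt_top_iff_ne_top.2 hne)
  set lam : J k → ℂ := fun d => f (Pi.single d 1) with hlam
  have hfl : ∀ y : J k → ℂ, f y = ∑ d, lam d * y d := by
    intro y
    rw [LinearMap.pi_apply_eq_sum_univ f y]
    apply Finset.sum_congr rfl
    intro d _
    rw [smul_eq_mul, mul_comm, hlam]
    simp only
    congr 2
    funext i
    simp [Pi.single_apply, eq_comm]
  have hdiff : HasFDerivAt (Phi k S) (fderiv ℂ (Phi k S) v) v :=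
    ((Phi_contDiff k S).differentiable (by norm_num) v).hasFDerivAt
  have hpart : ∀ (p : S) (j : Fin 3),
      ∑ d : J k, lam d * ((d.1 j : ℂ) * v p j ^ (d.1 j - 1) * ∏ l ∈ univ.erase j, v p l ^ d.1 l) =
        0 := by
    intro p j
    set h : S → Fin 3 → ℂ := Pi.single p (Pi.single j 1) with hh
    have h1 : (fderiv ℂ (Phi k S) v) h ∈ LinearMap.ker f := hf ⟨h, rfl⟩
    rw [LinearMap.mem_ker, hfl] at h1
    rw [← h1]
    apply Finset.sum_congr rfl
    intro d _
    congr 1
    have h2 : HasDerivAt (fun t : ℂ => Phi k S (v + t • h)) (fderiv ℂ (Phi k S) v h) 0 := by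
      have h3 : HasDerivAt (fun t : ℂ => v + t • h) h 0 := by
        have := ((hasDerivAt_id (0 : ℂ)).smul_const h).const_add v
        simpa using this
      have h4 : HasFDerivAt (Phi k S) (fderiv ℂ (Phi k S) v) (v + (0 : ℂ) • h) := by
        rw [zero_smul, add_zero]; exact hdiff
      exact h4.comp_hasDerivAt (0 : ℂ) h3
    have h5 := (hasDerivAt_pi.1 h2) d
    exact (der k S v p j d).unique h5
  have hsing : ∀ p ∈ S, Sing k (gg k lam) p.1 p.2 := by
    intro p hp
    have hp0 := hpart ⟨p, hp⟩ 0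
    have hp1 := hpart ⟨p, hp⟩ 1
    have hp2 := hpart ⟨p, hp⟩ 2
    have e0 : (univ : Finset (Fin 3)).erase 0 = {1, 2} := by decide
    have e1 : (univ : Finset (Fin 3)).erase 1 = {0, 2} := by decide
    have e2 : (univ : Finset (Fin 3)).erase 2 = {0, 1} := by decide
    rw [e0] at hp0
    rw [e1] at hp1
    rw [e2] at hp2
    have v0 : v ⟨p, hp⟩ 0 = 1 := rfl
    have v1 : v ⟨p, hp⟩ 1 = (p.1 : ℂ) := rfl
    have v2 : v ⟨p, hp⟩ 2 = (p.2 : ℂ) := rfl
    simp only [v0, v1, v2, one_pow, mul_one, one_mul,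
      Finset.prod_pair (show (1 : Fin 3) ≠ 2 by decide),
      Finset.prod_pair (show (0 : Fin 3) ≠ 2 by decide),
      Finset.prod_pair (show (0 : Fin 3) ≠ 1 by decide)] at hp0 hp1 hp2
    refine ⟨?_, ?_, ?_⟩
    · have h1 := gg_sum k lam (Polynomial.leval (p.1 : ℂ)) (fun s => (p.2 : ℂ) ^ s)
      simp only [Polynomial.leval_apply, Polynomial.eval_pow, Polynomial.eval_X] at h1
      rw [h1]
      have hk0 : (k : ℂ) ≠ 0 := by exact_mod_cast (by omega : k ≠ 0)
      apply (mul_eq_zero.1 (?_ : (k : ℂ) * _ = 0)).resolve_left hk0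
      have h2 : (k : ℂ) * ∑ d : J k, lam d * (p.1 : ℂ) ^ d.1 1 * (p.2 : ℂ) ^ d.1 2 =
          (∑ d : J k, lam d * ((d.1 0 : ℂ) * ((p.1 : ℂ) ^ d.1 1 * (p.2 : ℂ) ^ d.1 2))) +
          (p.1 : ℂ) * (∑ d : J k, lam d * ((d.1 1 : ℂ) * (p.1 : ℂ) ^ (d.1 1 - 1) *
            (p.2 : ℂ) ^ d.1 2)) +
          (p.2 : ℂ) * (∑ d : J k, lam d * ((d.1 2 : ℂ) * (p.2 : ℂ) ^ (d.1 2 - 1) *
            (p.1 : ℂ) ^ d.1 1)) := by
        rw [Finset.mul_sum, Finset.mul_sum, Finset.mul_sum, ← Finset.sum_add_distrib,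
          ← Finset.sum_add_distrib]
        apply Finset.sum_congr rfl
        intro d _
        have h3 := J_sum d
        rw [Fin.sum_univ_three] at h3
        have h4 : ((d.1 0 : ℂ) + d.1 1 + d.1 2) = k := by exact_mod_cast h3
        have h5 : ∀ (x : ℂ) (n : ℕ), x * ((n : ℂ) * x ^ (n - 1)) = n * x ^ n := by
          intro x n
          rcases n with _ | n
          · simp
          · simp only [Nat.add_sub_cancel, pow_succ]; ring
        calc (k : ℂ) * (lam d * (p.1 : ℂ) ^ d.1 1 * (p.2 : ℂ) ^ d.1 2)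
            = lam d * ((d.1 0 : ℂ) * ((p.1 : ℂ) ^ d.1 1 * (p.2 : ℂ) ^ d.1 2)) +
              lam d * (((d.1 1 : ℂ) * (p.1 : ℂ) ^ d.1 1) * (p.2 : ℂ) ^ d.1 2) +
              lam d * (((d.1 2 : ℂ) * (p.2 : ℂ) ^ d.1 2) * (p.1 : ℂ) ^ d.1 1) := by
              rw [← h4]; ring
          _ = _ := by rw [← h5 (p.1 : ℂ), ← h5 (p.2 : ℂ)]; ring
      rw [h2]
      simp only [hp0, hp1, hp2, mul_zero, add_zero]
    · have h1 := gg_sum k lam (Polynomial.leval (p.1 : ℂ))
        (fun s => (s : ℂ) * (p.2 : ℂ) ^ (s - 1))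
      simp only [Polynomial.leval_apply, Polynomial.eval_pow, Polynomial.eval_X] at h1
      rw [h1, ← hp2]
      apply Finset.sum_congr rfl
      intro d _
      ring
    · have h1 := gg_sum k lam ((Polynomial.leval (p.1 : ℂ)).comp Polynomial.derivative)
        (fun s => (p.2 : ℂ) ^ s)
      simp only [LinearMap.comp_apply, Polynomial.leval_apply, Polynomial.derivative_X_pow,
        Polynomial.eval_mul, Polynomial.eval_pow, Polynomial.eval_X, Polynomial.eval_C] at h1
      rw [h1, ← hp1]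
      apply Finset.sum_congr rfl
      intro d _
      ring
  have hzero := hS (gg k lam) (gg_deg k lam) hsing
  apply hf0
  have hlam0 : ∀ d : J k, lam d = 0 := by
    intro d
    have h1 : (gg k lam (d.1 2)).coeff (d.1 1) = 0 := by rw [hzero, Polynomial.coeff_zero]
    unfold gg at h1
    rw [Polynomial.finsetSum_coeff, Finset.sum_eq_single d] at h1
    · simpa using h1
    · intro d' _ hd'
      split_ifs with h2
      · rw [Polynomial.coeff_C_mul_X_pow, if_neg]
        intro h3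
        apply hd'
        apply Subtype.ext
        have h4 := J_sum d
        have h5 := J_sum d'
        rw [Fin.sum_univ_three] at h4 h5
        funext l
        fin_cases l
        · show d'.1 0 = d.1 0
          omega
        · exact h3.symm
        · exact h2
      · simp
    · intro h; exact absurd (mem_univ _) h
  apply LinearMap.ext
  intro y
  rw [hfl]
  simp [hlam0]

end Pool.Agent.H964R2.Ws
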