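import Pool.Agent.H964R2.Ws.Dense

/-!
# Zariski closedness of the rank loci of ternary forms
-/

set_option autoImplicit false

namespace Pool.Agent.H964R2.Ws

open Finset Filter Topology

/-- the configuration of points -/
theorem config (k : ℕ) (hk : 3 ≤ k) : ∃ S : Finset (ℕ × ℕ), S.card ≤ (k + 1) ^ 2 / 4 ∧
    ∀ g : ℕ → Polynomial ℂ, (∀ s, g s ≠ 0 → (g s).natDegree + s ≤ k) →
      (∀ p ∈ S, Sing k g p.1 p.2) → ∀ s, g s = 0 := by
  rcases Nat.even_or_odd' k with ⟨m, hm | hm⟩
  · subst hm
    refine ⟨(({0} : Finset ℕ) ×ˢ range (m + 1)) ∪ (Finset.Ico 1 m ×ˢ range m) ∪ {(m, 0)}, ?_, ?_⟩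
    · refine (Finset.card_union_le _ _).trans ?_
      refine (Nat.add_le_add_right (Finset.card_union_le _ _) _).trans ?_
      rw [Finset.card_product, Finset.card_product, Finset.card_singleton, Finset.card_range,
        Finset.card_range, Nat.card_Ico, Finset.card_singleton]
      have h6 : (2 * m + 1) ^ 2 = 4 * (m * (m + 1)) + 1 := by ring
      rw [h6]
      have h7 : (4 * (m * (m + 1)) + 1) / 4 = m * (m + 1) := by omega
      rw [h7]
      obtain ⟨l, rfl⟩ : ∃ l, m = l + 2 := ⟨m - 2, by omega⟩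
      have : l + 2 - 1 = l + 1 := by omega
      rw [this]
      nlinarith
    · intro g hdeg h
      apply even_case m (by omega) g hdeg
      · intro j hj
        exact h (0, j) (by simp; omega)
      · intro i hi him j hj
        exact h (i, j) (by
          rw [Finset.mem_union, Finset.mem_union]
          left; right
          rw [Finset.mem_product, Finset.mem_Ico, Finset.mem_range]
          exact ⟨⟨hi, him⟩, hj⟩)
      · exact h (m, 0) (by simp)
  · subst hm
    refine ⟨range (m + 1) ×ˢ range (m + 1), ?_, ?_⟩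
    · rw [Finset.card_product, Finset.card_range]
      have h6 : (2 * m + 1 + 1) ^ 2 = 4 * ((m + 1) * (m + 1)) := by ring
      rw [h6]
      omega
    · intro g hdeg h
      apply odd_case m g hdeg
      intro i hi j hj
      exact h (i, j) (by rw [Finset.mem_product, Finset.mem_range, Finset.mem_range]; exact ⟨hi, hj⟩)

/-- coefficient family from moments -/
noncomputable def cf (k : ℕ) (y : J k → ℂ) (d0 : Fin 3 →₀ ℕ) : ℂ :=
  if h : (⇑d0) ∈ Finset.piAntidiag (univ : Finset (Fin 3)) k then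
    (Nat.multinomial univ (⇑d0) : ℂ) * y ⟨⇑d0, h⟩ else 0

theorem mem_anti {ι : Type} [Fintype ι] [DecidableEq ι] (k : ℕ) (d : ι → ℕ) :
    d ∈ Finset.piAntidiag (univ : Finset ι) k ↔ ∑ i, d i = k := by
  rw [Finset.mem_piAntidiag]
  simp

theorem cf_phi (k : ℕ) (S : Finset (ℕ × ℕ)) (v : S → Fin 3 → ℂ) :
    cf k (Phi k S v) = fun d => (∑ i : S, MvPolynomial.C 1 * lf k (v i)).coeff d := by
  funext d0
  have h := coeff_sum_lf k (univ : Finset S) (fun _ => (1 : ℂ)) v (⇑d0)
  have he : ex (⇑d0) = d0 := by ext i; rfl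
  rw [he] at h
  rw [h]
  unfold cf
  by_cases hd : ∑ i, d0 i = k
  · rw [dif_pos ((mem_anti k _).2 hd), if_pos hd]
    simp [Phi]
  · rw [dif_neg (fun h => hd ((mem_anti k _).1 h)), if_neg hd]

theorem cf_line (k : ℕ) (y0 y : J k → ℂ) (t : ℂ) (d0 : Fin 3 →₀ ℕ) :
    cf k (y0 + t • (y - y0)) d0 = cf k y0 d0 + t * cf k (y - y0) d0 := by
  unfold cf
  split_ifs with h
  · simp only [Pi.add_apply, Pi.smul_apply, Pi.sub_apply, smul_eq_mul]
    ring
  · ring

theorem hom_coeff {ι : Type} [Fintype ι] [DecidableEq ι] {k : ℕ} {F : MvPolynomial ι ℂ}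
    (hF : F.IsHomogeneous k) (d : ι → ℕ) (hd : ∑ i, d i ≠ k) : F.coeff (ex d) = 0 := by
  by_contra hne
  have h1 := hF hne
  apply hd
  rw [← h1, Finsupp.weight_apply, Finsupp.sum_fintype]
  · simp
  · simp

/-- polynomials vanishing on the forms of rank at most `⌊(k+1)²/4⌋` vanish on all forms -/
theorem dense (k : ℕ) (hk : 3 ≤ k) (P : MvPolynomial (Fin 3 →₀ ℕ) ℂ)
    (hP : ∀ F : MvPolynomial (Fin 3) ℂ, RankLE k ((k + 1) ^ 2 / 4) F →
      MvPolynomial.eval (fun d => F.coeff d) P = 0)
    (F : MvPolynomial (Fin 3) ℂ) (hF : F.IsHomogeneous k) :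
    MvPolynomial.eval (fun d => F.coeff d) P = 0 := by
  obtain ⟨S, hSc, hS⟩ := config k hk
  obtain ⟨v, hv⟩ := surj k (by omega) S hS
  set y0 := Phi k S v with hy0
  set y : J k → ℂ := fun d => F.coeff (ex d.1) / (Nat.multinomial univ d.1 : ℂ) with hy
  have hstrict : HasStrictFDerivAt (Phi k S) (fderiv ℂ (Phi k S) v) v :=
    (Phi_contDiff k S).contDiffAt.hasStrictFDerivAt (by norm_num)
  have hmap := hstrict.map_nhds_eq_of_surj hv
  have hrange : Set.range (Phi k S) ∈ 𝓝 y0 := by
    rw [hy0, ← hmap]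
    exact Filter.range_mem_map
  have hcfF : cf k y = fun d => F.coeff d := by
    funext d0
    have he : ex (⇑d0) = d0 := by ext i; rfl
    unfold cf
    by_cases hd : ∑ i, d0 i = k
    · rw [dif_pos ((mem_anti k _).2 hd)]
      simp only [hy]
      rw [he]
      have : (Nat.multinomial univ (⇑d0) : ℂ) ≠ 0 := by
        exact_mod_cast (Nat.multinomial_pos _ _).ne'
      field_simp
    · rw [dif_neg (fun h => hd ((mem_anti k _).1 h))]
      have := hom_coeff hF (⇑d0) hd
      rw [he] at this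
      exact this.symm
  set Q : Polynomial ℂ := MvPolynomial.aeval (fun d0 => Polynomial.C (cf k y0 d0) +
    Polynomial.X * Polynomial.C (cf k (y - y0) d0)) P with hQ
  have hQe : ∀ t : ℂ, Q.eval t = MvPolynomial.eval (cf k (y0 + t • (y - y0))) P := by
    intro t
    have h1 : ((Polynomial.aeval t).comp (MvPolynomial.aeval (fun d0 => Polynomial.C (cf k y0 d0) +
      Polynomial.X * Polynomial.C (cf k (y - y0) d0)) : MvPolynomial (Fin 3 →₀ ℕ) ℂ →ₐ[ℂ]
        Polynomial ℂ)) = MvPolynomial.aeval (cf k (y0 + t • (y - y0))) := by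
      apply MvPolynomial.algHom_ext
      intro d0
      have h0 := cf_line k y0 y t d0
      rw [AlgHom.comp_apply, MvPolynomial.aeval_X, MvPolynomial.aeval_X, h0,
        Polynomial.coe_aeval_eq_eval, Polynomial.eval_add, Polynomial.eval_mul,
        Polynomial.eval_C, Polynomial.eval_C, Polynomial.eval_X]
    have h2 := DFunLike.congr_fun h1 P
    rw [AlgHom.comp_apply, Polynomial.coe_aeval_eq_eval] at h2
    rw [hQ]
    rw [h2]
    rfl
  have hnear : {t : ℂ | Q.IsRoot t} ∈ 𝓝 (0 : ℂ) := by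
    have hcont : Tendsto (fun t : ℂ => y0 + t • (y - y0)) (𝓝 0) (𝓝 y0) := by
      have : Continuous (fun t : ℂ => y0 + t • (y - y0)) := by fun_prop
      have h2 := this.tendsto 0
      simpa using h2
    filter_upwards [hcont hrange] with t ht
    obtain ⟨v', hv'⟩ := ht
    show Q.eval t = 0
    have hv2 : Phi k S v' = y0 + t • (y - y0) := hv'
    rw [hQe t, ← hv2, cf_phi]
    apply hP
    apply RankLE.mono _ hSc
    have h3 := RankLE.of_finset k S.card (univ : Finset S) (by simp) (fun _ => (1 : ℂ)) v'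
    exact h3
  have hQ0 : Q = 0 := Polynomial.eq_zero_of_infinite_isRoot Q (infinite_of_mem_nhds 0 hnear)
  have h1 := hQe 1
  rw [hQ0, Polynomial.eval_zero, one_smul, add_sub_cancel, hcfF] at h1
  exact h1.symm

/-- the set of forms of rank at most `r` is cut out by polynomials in the coefficients -/
def ZarClosed (ι : Type) [Fintype ι] [DecidableEq ι] (k r : ℕ) : Prop :=
  ∃ P : Set (MvPolynomial (ι →₀ ℕ) ℂ), ∀ F : MvPolynomial ι ℂ, F.IsHomogeneous k →
    (RankLE k r F ↔ ∀ p ∈ P, MvPolynomial.eval (fun d => F.coeff d) p = 0)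

section

variable {ι : Type} [Fintype ι] [DecidableEq ι]

theorem RankLE.hom {k r : ℕ} {F : MvPolynomial ι ℂ} (h : RankLE k r F) : F.IsHomogeneous k := by
  obtain ⟨c, v, rfl⟩ := h
  intro d hd
  have he : ex (⇑d) = d := by ext i; rfl
  by_contra hne
  apply hd
  rw [← he, coeff_sum_lf, if_neg]
  intro h1
  apply hne
  rw [Finsupp.weight_apply, Finsupp.sum_fintype]
  · simpa using h1
  · simp

theorem ZarClosed.isClosed {k r : ℕ} (h : ZarClosed ι k r) : IsClosed (locus ι k r) := by
  obtain ⟨P, hP⟩ := h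
  have heq : locus ι k r = {f | ∀ d : ι → ℕ, ∑ i, d i ≠ k → f (ex d) = 0} ∩
      {f | ∀ p ∈ P, MvPolynomial.eval f p = 0} := by
    ext f
    constructor
    · rintro ⟨F, hF, rfl⟩
      exact ⟨fun d hd => hom_coeff hF.hom d hd, (hP F hF.hom).1 hF⟩
    · rintro ⟨h1, h2⟩
      set F : MvPolynomial ι ℂ := ∑ d ∈ Finset.piAntidiag (univ : Finset ι) k,
        MvPolynomial.monomial (ex d) (f (ex d)) with hF
      have hco : ∀ d : ι → ℕ, F.coeff (ex d) = f (ex d) := by
        intro d
        rw [hF, MvPolynomial.coeff_sum]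
        simp only [MvPolynomial.coeff_monomial]
        have h3 : ∀ g : ι → ℕ, (ex g = ex d) ↔ g = d := fun g =>
          ⟨fun h => by funext i; have := DFunLike.congr_fun h i; simpa using this,
            fun h => by rw [h]⟩
        simp only [h3]
        rw [Finset.sum_ite_eq']
        by_cases hd : ∑ i, d i = k
        · rw [if_pos ((mem_anti k d).2 hd)]
        · rw [if_neg (fun h => hd ((mem_anti k d).1 h)), h1 d hd]
      have hfF : f = fun d => F.coeff d := by
        funext d0
        have he : ex (⇑d0) = d0 := by ext i; rfl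
        rw [← he, hco]
      have hhom : F.IsHomogeneous k := by
        intro d0 hd0
        have he : ex (⇑d0) = d0 := by ext i; rfl
        rw [Finsupp.weight_apply, Finsupp.sum_fintype]
        · by_contra hne
          apply hd0
          rw [← he, hco]
          apply h1
          intro h4
          apply hne
          simpa using h4
        · simp
      refine ⟨F, (hP F hhom).2 ?_, hfF⟩
      rw [← hfF]
      exact h2
  rw [heq]
  apply IsClosed.inter
  · have : {f : (ι →₀ ℕ) → ℂ | ∀ d : ι → ℕ, ∑ i, d i ≠ k → f (ex d) = 0} =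
      ⋂ d : ι → ℕ, ⋂ _ : ∑ i, d i ≠ k, {f | f (ex d) = 0} := by
      ext f; simp
    rw [this]
    apply isClosed_iInter
    intro d
    apply isClosed_iInter
    intro _
    exact isClosed_eq (continuous_apply _) continuous_const
  · have : {f : (ι →₀ ℕ) → ℂ | ∀ p ∈ P, MvPolynomial.eval f p = 0} =
      ⋂ p ∈ P, {f | MvPolynomial.eval f p = 0} := by
      ext f; simp
    rw [this]
    apply isClosed_biInter
    intro p _
    exact isClosed_eq (MvPolynomial.continuous_eval p) continuous_const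

end

/-- three variables, degree at least four: `Y_r` is Zariski closed only for `r ≤ 1` and `r ≥ R_S` -/
theorem main3 (k r : ℕ) (hk : 4 ≤ k) (h2 : 2 ≤ r)
    (hr : ∃ F : MvPolynomial (Fin 3) ℂ, F.IsHomogeneous k ∧ ¬ RankLE k r F) :
    ¬ ZarClosed (Fin 3) k r := by
  intro hz
  by_cases hlt : r < (k + 1) ^ 2 / 4
  · exact main2 3 k r le_rfl hk h2 hlt hz.isClosed
  push Not at hlt
  obtain ⟨F, hF, hFr⟩ := hr
  obtain ⟨P, hP⟩ := hz
  apply hFr
  rw [hP F hF]
  intro p hp
  apply dense k (by omega) p _ F hF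
  intro G hG
  exact (hP G hG.hom).1 (hG.mono hlt) p hp

end Pool.Agent.H964R2.Ws
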